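import Pool.Agent.R461.UT.Tate

/-!
# Tate's formula for the pole: the square decides, and there is at most one exception

`K` is a number field, `X` a smooth projective variety over `K`, `V = A^m(X) ⊗ ℚ` the space of the classes
of the algebraic cycles of codimension `m` defined over the algebraic closure, and `T` the
transcendental part of `H^{2m}(X)`, the complement of `V(-m)`.  Tate's formula (Q1 for `k = K`, `j = m`)
says that the order `r` of the pole of `L(H^{2m}(X), s)` at `m + 1` is the rank `dim V^G` of `A^m(X)`; the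
order of a pole is that of the problem (`PoleOrder`).  The `L`-functions of `T ⊗ T` and `T ⊗ V` are factors
of that of `H^{4m}(X × X)`.  The objects `M` are the tensor products of any cohomology groups or
transcendental parts of them, for any varieties over `K`, and of an Artin representation of `K`;
the edge line of `L(M, s)` is `Re s = w/2 + 1`, `w` the weight of `M`.
The definitions are in `Pool.Agent.R461.UT.Defs`, `Pool.Agent.W353.TD.Defs`, `Pool.Agent.W353.AT.Defs`,
`Pool.Agent.W353.EH.Defs` and `Pool.Agent.W353.EF.Defs`.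
-/

set_option autoImplicit false

namespace Pool.Agent.Results.MP_223b32_ag.SquareAndOneException

open NumberField IsDedekindDomain Filter Topology Polynomial
open Pool.Agent.W353.AT (IsArtin)
open Pool.Agent.W353.EH (size)
open Pool.Agent.R461.UT

/-- **The square decides, and there is at most one exception.**  Suppose that `L(H^{2m}(X), s)` has a pole
of some order `r` at `m + 1`, and that `L(T ⊗ T, s)` has at most a simple pole at `2m + 1` (`Tame T m r`;
if the algebra of the self-correspondences of `T` is `ℚ`, then Tate's formula for `X × X` predicts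
exactly a simple pole).  No continuation and no automorphy is assumed.  Let `δ = r - dim V^G`.
* `δ` is `0`, `1` or `-1`.
* The square decides: if `L(T ⊗ V, s)` has a pole of some order `k` at the edge, then `δ = 0` or
`k = δ dim V^G`.  So if `A^m(X) ≠ 0` and `k = 0`, as Tate's formula for `X × X` predicts, then Tate's
formula is true for `X`.
* Let `δ ≠ 0` and write `x_τ(M) = log |L(M, w/2 + 1 + iτ + ε)| / log(1/ε)`.  Then `x_τ(T ⊗ M) - δ x_τ(M)` tends
to `0` for all `M` and `τ`; the orders of the poles satisfy `k = δ k'`, if they exist.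
* If `δ ≠ 0` and `δ' ≠ 0` for `T` and `T'`, then `x_0(T ⊗ T')` tends to `δ δ'`, and `L(T ⊗ T', s)` has a pole of
order `δ δ'`, if it has some order; and `x_τ(T ⊗ M) - δ δ' x_τ(T' ⊗ M)` tends to `0` for all `M` and `τ`.
* At most one exception: if, for any family of such `X_a`, the orders of `L(T_a ⊗ T_b, s)` at the edge are
`0` for `a ≠ b` (as Tate's formula for `X_a × X_b` predicts if there are no correspondences between
`T_a` and `T_b`), then Tate's formula is true for all `X_a` with at most one exception. -/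
theorem result (K : Type) [Field K] [NumberField K] :
    (∀ (T : Piece K) (m : ℕ) (r : ℤ), Tame T m r →
      (r - T.rk = 0 ∨ r - T.rk = 1 ∨ r - T.rk = -1) ∧
      (∀ (n : ℕ) (ψ : Representation ℂ Gal(AlgebraicClosure K/K) (Fin n → ℂ)) (hψ : IsArtin ψ)
        (C : HeightOneSpectrum (𝓞 K) → ℂ[X]) (k : ℤ),
        (∀ g, ψ.character g = ((LinearMap.trace ℚ T.V (T.ρ g) : ℚ) : ℂ)) →
        IsTensor T.mot (artinMot ψ hψ) 0 C → PoleT T.mot (artinMot ψ hψ) 0 C k →
        (r = T.rk ∨ k = (r - T.rk) * T.rk) ∧ (T.rk ≠ 0 → k = 0 → r = T.rk)) ∧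
      (r ≠ T.rk → ∀ (M : Mot K) (τ : ℝ) (C C' : HeightOneSpectrum (𝓞 K) → ℂ[X]),
        IsTensor T.mot M τ C → IsL M τ C' →
        Tendsto (fun ε : ℝ => sizeT T.mot M τ C ε - ((r - T.rk : ℤ) : ℝ) *
          size (weight M.H) τ C' ε) (𝓝[>] 0) (𝓝 0) ∧
        ∀ k k' : ℤ, PoleT T.mot M τ C k → PoleOrder (weight M.H) τ C' k' →
          k = (r - T.rk) * k')) ∧
    (∀ (T T' : Piece K) (m m' : ℕ) (r r' : ℤ), Tame T m r → Tame T' m' r' → r ≠ T.rk →
      r' ≠ T'.rk → (∀ D : HeightOneSpectrum (𝓞 K) → ℂ[X], IsTensor T.mot T'.mot 0 D →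
        Tendsto (sizeT T.mot T'.mot 0 D) (𝓝[>] 0)
          (𝓝 (((r - T.rk : ℤ) : ℝ) * ((r' - T'.rk : ℤ) : ℝ))) ∧
        ∀ k : ℤ, PoleT T.mot T'.mot 0 D k → k = (r - T.rk) * (r' - T'.rk)) ∧
      ∀ (M : Mot K) (τ : ℝ) (C C' : HeightOneSpectrum (𝓞 K) → ℂ[X]),
        IsTensor T.mot M τ C → IsTensor T'.mot M τ C' →
        Tendsto (fun ε : ℝ => sizeT T.mot M τ C ε -
          ((r - T.rk : ℤ) : ℝ) * ((r' - T'.rk : ℤ) : ℝ) * sizeT T'.mot M τ C' ε) (𝓝[>] 0)
          (𝓝 0)) ∧
    ∀ (ι : Type) (T : ι → Piece K) (m : ι → ℕ) (r : ι → ℤ), (∀ a, Tame (T a) (m a) (r a)) →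
      (∀ a b, a ≠ b → ∃ D : HeightOneSpectrum (𝓞 K) → ℂ[X],
        IsTensor (T a).mot (T b).mot 0 D ∧ PoleT (T a).mot (T b).mot 0 D 0) →
      ∀ a b, r a ≠ (T a).rk → r b ≠ (T b).rk → a = b := by
  have key : ∀ (T T' : Piece K) (m m' : ℕ) (r r' : ℤ), Tame T m r → Tame T' m' r' → r ≠ T.rk →
      r' ≠ T'.rk → _ := fun T T' m m' r r' h h' hr hr' =>
    tate_pairs h h' (sub_ne_zero.2 hr) (sub_ne_zero.2 hr')
  refine ⟨fun T m r h => ⟨?_, fun n ψ hψ C k hc hC hk => ?_, fun hr M τ C C' hC hC' =>
    (tate_twists h (sub_ne_zero.2 hr)).2 M τ C C' hC hC'⟩, key, ?_⟩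
  · by_cases hr : r - T.rk = 0
    · exact Or.inl hr
    · exact Or.inr (tate_twists h hr).1
  · have h1 := tate_square h ψ hψ hc hC hk
    refine ⟨h1, fun h2 h3 => ?_⟩
    rcases h1 with h1 | h1
    · exact h1
    · rw [h3] at h1
      have h4 : ((T.rk : ℕ) : ℤ) ≠ 0 := by exact_mod_cast h2
      have h5 := (mul_eq_zero.1 h1.symm).resolve_right h4
      omega
  · intro ι T m r hT hD a b ha hb
    by_contra hab
    obtain ⟨D, h1, h2⟩ := hD a b hab
    have h3 := ((key _ _ _ _ _ _ (hT a) (hT b) ha hb).1 D h1).2 0 h2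
    rcases mul_eq_zero.1 h3.symm with h4 | h4
    · exact ha (by omega)
    · exact hb (by omega)

end Pool.Agent.Results.MP_223b32_ag.SquareAndOneException
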